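import Pool.Agent.Helper97.RSDefs
import Pool.Agent.Helper97.RSProof

open MeasureTheory Filter Topology
open Pool.Agent.Helper97.RS

namespace Pool.Agent.Results.MP_aabed8_pr.BallCounterexample

/-- **Negative answer.** There are a B-convex Banach space `X` and a uniformly bounded independent
sequence `Ψ n` of random bounded convex sets in `X`, all with the same expectation `U`, whose
Minkowski averages stay at Hausdorff distance at least `1/3` from `U` for every `ω` and every
`n ≥ 1`; in particular they do not converge to `U` for any `ω`.  (The proof takes `X = ℓ²(ℕ)` and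
`U` the closed unit ball.) -/
theorem result :
    ∃ (X : Type) (_ : NormedAddCommGroup X) (_ : NormedSpace ℝ X) (R : Set X → Z X)
      (Ω : Type) (_ : MeasurableSpace Ω) (μ : Measure Ω) (Ψ : ℕ → Ω → Set X) (U : Set X),
      CompleteSpace X ∧ BConvex X ∧ IsProbabilityMeasure μ ∧ IsRadstrom R ∧ IsBC U ∧
      (∀ n, IsRandomSet R (Ψ n)) ∧ IndepSets R μ Ψ ∧ UnifBdd Ψ ∧ (∀ n, HasExp R μ (Ψ n) U) ∧
      (∀ ω, ∀ n, 1 ≤ n → 1 / 3 ≤ avgDist Ψ U ω n) ∧
      (∀ ω, ¬ Tendsto (avgDist Ψ U ω) atTop (𝓝 0)) :=
  main'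

end Pool.Agent.Results.MP_aabed8_pr.BallCounterexample
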